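import Pool.Agent.Helper62.BW.Stm

/-! # Package W9 (W_QDet) -/

set_option autoImplicit false

open Polynomial Matrix Finset

namespace Pool.Agent.Helper82.BW

open Pool.Agent.Helper62.BM Pool.Agent.Helper62.BW

/-- matrices which are triangular with respect to the antidiagonal, with constant entries on it -/
theorem det_anti_const {A : Type} [CommRing A] [IsDomain A] {n : ℕ}
    (M : Matrix (Fin n) (Fin n) A[X]) (c : Fin n → A)
    (h0 : ∀ i j : Fin n, n ≤ (i : ℕ) + j → M i j = 0)
    (h1 : ∀ i j : Fin n, (i : ℕ) + j + 1 = n → M i j = Polynomial.C (c i)) (hc : ∀ i, c i ≠ 0) :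
    ∃ δ : A, δ ≠ 0 ∧ M.det = Polynomial.C δ := by
  have hrev : ∀ i : Fin n, ((Fin.revPerm i : Fin n) : ℕ) + (i : ℕ) + 1 = n := by
    intro i
    rw [Fin.revPerm_apply, Fin.val_rev]
    have := i.2
    omega
  have htri : (M.submatrix id (Fin.revPerm : Equiv.Perm (Fin n))).BlockTriangular id := by
    intro i j hij
    have hij' : j < i := hij
    rw [Matrix.submatrix_apply]
    apply h0
    have h2 := hrev j
    have h3 : (j : ℕ) < i := hij'
    simp only [id_eq]
    omega
  have hdet := Matrix.det_of_upperTriangular htri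
  have hdiag : ∀ i, (M.submatrix id (Fin.revPerm : Equiv.Perm (Fin n))) i i =
      Polynomial.C (c i) := by
    intro i
    rw [Matrix.submatrix_apply]
    apply h1
    have h2 := hrev i
    simp only [id_eq]
    omega
  have hdet2 : (M.submatrix id (Fin.revPerm : Equiv.Perm (Fin n))).det =
      Polynomial.C (∏ i, c i) := by
    rw [hdet, map_prod]
    exact Finset.prod_congr rfl fun i _ => hdiag i
  rw [Matrix.det_permute'] at hdet2
  rcases Int.units_eq_one_or (Equiv.Perm.sign (Fin.revPerm : Equiv.Perm (Fin n))) with hs | hs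
  · refine ⟨∏ i, c i, Finset.prod_ne_zero_iff.2 fun i _ => hc i, ?_⟩
    rw [hs] at hdet2
    simpa using hdet2
  · refine ⟨-∏ i, c i, neg_ne_zero.2 (Finset.prod_ne_zero_iff.2 fun i _ => hc i), ?_⟩
    rw [hs] at hdet2
    have h4 : -M.det = Polynomial.C (∏ i, c i) := by simpa using hdet2
    rw [Polynomial.C_neg, ← h4, neg_neg]

theorem w_QDet : W_QDet := by
  intro A _ _ _ g hg F hF hdeg
  have hgt : ∀ k, 2 * g + 1 < k → F.coeff k = 0 := fun k hk =>
    coeff_eq_zero_of_natDegree_lt (by rw [hdeg]; exact hk)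
  have htop : F.coeff (2 * g + 1) = 1 := by
    rw [← hdeg]; exact hF
  have hnat : ∀ a b : ℕ, a ≠ b → ((a : A) - (b : A)) ≠ 0 := by
    intro a b hab
    rw [sub_ne_zero]
    exact fun h => hab (Nat.cast_injective h)
  have hC : ∀ a b : ℕ, ((a : A[X]) - (b : A[X])) = Polynomial.C ((a : A) - (b : A)) := by
    intro a b
    simp
  refine ⟨?_, ?_, ?_⟩
  · ext1 i j
    rw [Matrix.transpose_apply, Matrix.neg_apply, Q2F, Matrix.of_apply, Matrix.of_apply,
      show (j : ℕ) + i + 2 = i + j + 2 by omega]
    ring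
  · ext1 i j
    rw [Matrix.submatrix_apply, Q2F, Matrix.of_apply]
    simp only [hi]
    rw [hgt _ (by omega), mul_zero]
    rfl
  · obtain ⟨δ, hδ, hδ2⟩ := det_anti_const (Q2F (2 * g) F)
      (fun i => ((i : ℕ) : A) - ((2 * g - 1 - i : ℕ) : A)) (fun i j hij => by
        rw [Q2F, Matrix.of_apply, hgt _ (by omega), mul_zero]) (fun i j hij => by
        rw [Q2F, Matrix.of_apply, show (i : ℕ) + j + 2 = 2 * g + 1 by omega, htop, mul_one, hC,
          show (j : ℕ) = 2 * g - 1 - i by omega]) (fun i => by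
        apply hnat
        have := i.2
        omega)
    obtain ⟨δ', hδ', hδ2'⟩ := det_anti_const ((Q2F (2 * g) F).submatrix
        (lo : Fin g → Fin (2 * g)) hi)
      (fun i => ((i : ℕ) : A) - ((g + (g - 1 - i) : ℕ) : A)) (fun i j hij => by
        rw [Matrix.submatrix_apply, Q2F, Matrix.of_apply]
        simp only [lo, hi]
        rw [hgt _ (by omega), mul_zero]) (fun i j hij => by
        rw [Matrix.submatrix_apply, Q2F, Matrix.of_apply]
        simp only [lo, hi]
        rw [show (i : ℕ) + (g + j) + 2 = 2 * g + 1 by omega, htop, mul_one, hC,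
          show g + (j : ℕ) = g + (g - 1 - i) by omega]) (fun i => by
        apply hnat
        have := i.2
        omega)
    exact ⟨δ, δ', hδ, hδ', hδ2, hδ2'⟩

end Pool.Agent.Helper82.BW
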